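import Pool.Agent.R927.PB3
import Pool.Agent.N858.R3.Irr2
import Pool.Agent.N858.R3.FinIrr
import Pool.Agent.N858.P5.Final
import Pool.Agent.N858.R4.Final

set_option autoImplicit false

/-!
Flat bundles on curves which contain the pull-back of a system with rough denominators.
-/

open Finset Polynomial

namespace Pool.Agent.N858.PB

open Pool.Agent.W432.PC Pool.Agent.Y227.SS Pool.Agent.R927
open Pool.Agent.W77.IM (CoordRing)
open Pool.Agent.N858.PC Pool.Agent.N858.R3

universe u v w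

/-- There are a set of at least `ε * φ(N)` residue classes modulo `N`, prime to `N`, and a nonzero `g` in
`R` such that the `p`-curvature of `E` is nonzero at all the closed points of `Spec R[1/g]` whose residue
characteristic is a large prime in one of these classes. -/
def BadModelClasses {R : Type u} [CommRing R] {F : Type v} [Field F] [Algebra R F] {V : Type w}
    [AddCommGroup V] [Module F V] {A : Subalgebra R F} (nabla : V →+ V) (E : Submodule A V) (N : ℕ)
    (ε : ℝ) : Prop :=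
  ∃ S : Finset (ZMod N)ˣ, ε * N.totient ≤ S.card ∧ BadModelFor nabla E N S

section

variable {R : Type u} [CommRing R] [IsDomain R] [CharZero R] [Algebra.FiniteType ℤ R]
  {F : Type v} [Field F] [Algebra R F] {V : Type w} [AddCommGroup V] [Module F V]
  {δ : Derivation R F F} {x : F} {nabla : V →+ V} {T : R[X]} {E : Submodule (CoordRing x T R) V}
  {n r : ℕ} {α : Fin n → R} {A : Fin n → Matrix (Fin r) (Fin r) R} {vv : Fin r → V}

theorem badModelClasses (hpb : HasPullback α A δ x nabla vv)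
    (hRF : Function.Injective (algebraMap R F)) (hx : δ x = 1) (hT : T ≠ 0)
    (hE : IsModel x T nabla E) {N : ℕ} {ε : ℝ} {g : R} (hg : g ≠ 0)
    (h : BadClasses α A N ε g) : BadModelClasses nabla E N ε := by
  obtain ⟨g', hg', h1⟩ := transfer hRF hx hpb T hT E hE.fg hE.span
  obtain ⟨S, P₀, hS, h2⟩ := h
  refine ⟨S, hS, g * g', mul_ne_zero hg hg', P₀, fun p hp hpP s hs hps 𝔪 h𝔪 hpm hm h4 => ?_⟩
  exact h2 p hp hpP ⟨s, hs, hps⟩ 𝔪 hpm (fun h3 => hm (𝔪.mul_mem_right _ h3))
    (h1 𝔪 (fun h3 => hm (𝔪.mul_mem_left _ h3)) h4)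

theorem pull (hpb : HasPullback α A δ x nabla vv)
    (hRF : Function.Injective (algebraMap R F)) (hx : δ x = 1) (hT : T ≠ 0)
    (hE : IsModel x T nabla E) {N : ℕ} {ε : ℝ} {Q : Prop}
    (h : Q ∨ ((∃ g : R, g ≠ 0 ∧ BadClasses α A N ε g) ∧ ¬ CondII α A)) :
    Q ∨ (BadModelClasses nabla E N ε ∧ ¬ HypH nabla E) := by
  refine h.imp id ?_
  rintro ⟨⟨g, hg, h1⟩, h2⟩
  exact ⟨badModelClasses hpb hRF hx hT hE hg h1, fun hH => h2 (hpb.condII hRF hx hT hE hH)⟩

theorem pull_one (hpb : HasPullback α A δ x nabla vv)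
    (hRF : Function.Injective (algebraMap R F)) (hx : δ x = 1) (hT : T ≠ 0)
    (hE : IsModel x T nabla E) {N : ℕ} {ε : ℝ} {Q : Prop}
    (h : Q ∨ (BadClasses α A N ε 1 ∧ ¬ CondII α A)) :
    Q ∨ (BadModelClasses nabla E N ε ∧ ¬ HypH nabla E) :=
  pull hpb hRF hx hT hE (h.imp id fun h => ⟨⟨1, one_ne_zero, h.1⟩, h.2⟩)

end

end Pool.Agent.N858.PB
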